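import Pool.Agent.Helper58.AM.Sheet

set_option autoImplicit false

open Finset

namespace Pool.Agent.Helper58.AM

theorem st_GRW (h1 : ST_PRC) (h2 : ST_STB) : ST_GRW := by
  intro M V _ _ _ g U a ham haU
  classical
  obtain ⟨k, R, S, hka, hRU, hRc, hSc, hsum, hcase⟩ := h1 M V g U a
  by_cases hk : k = a
  · subst hk
    exact Or.inl ⟨R, S, hRU, hRc, hSc, hsum⟩
  · obtain ⟨hS1, hS2⟩ := hcase.resolve_left hk
    have hS3 : S.card = k + 1 := hS1 haU
    have hSn : S.Nonempty := by
      rw [← Finset.card_pos]; omega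
    obtain ⟨K, hK1, hK2⟩ := h2 M S ⊤ 0 hSn (fun s _ => AddSubgroup.mem_top _)
    right
    have hK3 : K < ⊤ ∧ S.card + Nat.card K ≤ Nat.card (⊤ : AddSubgroup M) := by
      rcases hK2 with h | h
      · exfalso
        have hall : ∀ x : M, x ∈ S := fun x => by
          have := h x (AddSubgroup.mem_top _)
          rwa [zero_add] at this
        have hc : S.card = Fintype.card M := by
          rw [← Finset.card_univ]
          congr 1
          exact Finset.eq_univ_iff_forall.2 hall
        omega
      · exact h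
    have hct : Nat.card (⊤ : AddSubgroup M) = Fintype.card M := by
      rw [AddSubgroup.card_top, Nat.card_eq_fintype_card]
    rw [hct, hS3] at hK3
    by_cases hne : (U \ R).Nonempty
    · obtain ⟨p, hp⟩ := hne
      exact ⟨k, R, K, g p, hRU, hRc, hK3.1, by omega,
        fun u hu => hK1 _ fun s hs => hS2 u hu p hp s hs⟩
    · refine ⟨k, R, K, 0, hRU, hRc, hK3.1, by omega, fun u hu => ?_⟩
      exact absurd ⟨u, hu⟩ hne

end Pool.Agent.Helper58.AM
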